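import Pool.Agent.Y251.LT.Stm

/-!
# A growth lemma for convex functions
-/

set_option autoImplicit false

namespace Pool.Agent.Y562.LT

open Set

theorem subgrad {B : ℝ → ℝ} {t₀ : ℝ} (hB : ConvexOn ℝ (Ioi t₀) B) :
    ∃ k : ℝ → ℝ, ∀ t s, t₀ < t → t₀ < s → B t + k t * (s - t) ≤ B s := by
  refine ⟨fun t => sInf ((fun s => (B s - B t) / (s - t)) '' Ioi t), ?_⟩
  intro t s ht hs
  have hlow : ∀ u, t₀ < u → u < t → ∀ y ∈ (fun s => (B s - B t) / (s - t)) '' Ioi t,
      (B t - B u) / (t - u) ≤ y := by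
    rintro u hu hut _ ⟨z, hz, rfl⟩
    exact hB.slope_mono_adjacent hu (lt_trans ht hz) hut hz
  have hne : ((fun s => (B s - B t) / (s - t)) '' Ioi t).Nonempty :=
    ⟨_, t + 1, by simp, rfl⟩
  show B t + sInf ((fun s => (B s - B t) / (s - t)) '' Ioi t) * (s - t) ≤ B s
  rcases lt_trichotomy s t with h | h | h
  · have h1 := le_csInf hne (hlow s hs h)
    rw [div_le_iff₀ (by linarith)] at h1
    linarith
  · subst h
    simp
  · have hbdd : BddBelow ((fun s => (B s - B t) / (s - t)) '' Ioi t) :=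
      ⟨_, hlow ((t₀ + t) / 2) (by linarith) (by linarith)⟩
    have h1 := csInf_le hbdd ⟨s, h, rfl⟩
    simp only at h1
    rw [le_div_iff₀ (by linarith)] at h1
    linarith

theorem pow_aux {q x : ℝ} (hq : 1 ≤ q) (hx : x ≤ q + 1 / (16 * q ^ 4)) (hx0 : 0 ≤ x) :
    x ^ 8 ≤ q ^ 8 + q ^ 3 := by
  have hq0 : 0 < q := by linarith
  have h1 : x ^ 8 ≤ (q + 1 / (16 * q ^ 4)) ^ 8 := pow_le_pow_left₀ hx0 hx 8
  refine h1.trans ?_
  set y : ℝ := 1 / q ^ 5 with hy
  have hy0 : 0 < y := by positivity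
  have hy1 : y ≤ 1 := by
    rw [hy, div_le_one (by positivity)]
    exact one_le_pow₀ hq
  have h2 : q + 1 / (16 * q ^ 4) = q * (1 + y / 16) := by
    rw [hy]
    field_simp
  have h3 : q ^ 8 + q ^ 3 = q ^ 8 * (1 + y) := by
    rw [hy]
    field_simp
  rw [h2, h3, mul_pow]
  apply mul_le_mul_of_nonneg_left _ (by positivity)
  have h4 : (1 + y / 16) ^ 2 ≤ 1 + 9 * y / 64 := by nlinarith
  have h5 : (1 + y / 16) ^ 4 ≤ 1 + 5 * y / 16 := by
    have : (1 + y / 16) ^ 4 = ((1 + y / 16) ^ 2) ^ 2 := by ring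
    rw [this]
    have h6 : ((1 + y / 16) ^ 2) ^ 2 ≤ (1 + 9 * y / 64) ^ 2 :=
      pow_le_pow_left₀ (by positivity) h4 2
    nlinarith
  have h7 : (1 + y / 16) ^ 8 = ((1 + y / 16) ^ 4) ^ 2 := by ring
  rw [h7]
  have h8 : ((1 + y / 16) ^ 4) ^ 2 ≤ (1 + 5 * y / 16) ^ 2 :=
    pow_le_pow_left₀ (by positivity) h5 2
  nlinarith

theorem gr : Pool.Agent.Y251.LT.S_GR := by
  intro B t₀ hB hgrow q₀
  obtain ⟨k, hk⟩ := subgrad hB
  have hmono : ∀ s t, t₀ < s → s ≤ t → k s ≤ k t := by
    intro s t hs hst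
    rcases eq_or_lt_of_le hst with h | h
    · rw [h]
    · have h1 := hk s t hs (by linarith)
      have h2 := hk t s (by linarith) hs
      by_contra hc
      push Not at hc
      nlinarith
  have hunb : ∀ M : ℝ, ∃ t, t₀ + 1 < t ∧ M < k t := by
    intro M
    obtain ⟨t, ht, h1⟩ := hgrow (B (t₀ + 1) - M * (t₀ + 1)) M
    refine ⟨t, ht, ?_⟩
    have h2 := hk t (t₀ + 1) (by linarith) (by linarith)
    by_contra hc
    push Not at hc
    nlinarith
  -- the function q
  set q : ℝ → ℝ := fun t => √(√(√(k t))) with hqdef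
  have hqmono : ∀ s t, t₀ < s → s ≤ t → q s ≤ q t := fun s t hs hst =>
    Real.sqrt_le_sqrt (Real.sqrt_le_sqrt (Real.sqrt_le_sqrt (hmono s t hs hst)))
  have hq8 : ∀ t, 0 ≤ k t → q t ^ 8 = k t := by
    intro t ht
    have h1 : q t ^ 2 = √(√(k t)) := Real.sq_sqrt (Real.sqrt_nonneg _)
    have h2 : (√(√(k t))) ^ 2 = √(k t) := Real.sq_sqrt (Real.sqrt_nonneg _)
    have h3 : (√(k t)) ^ 2 = k t := Real.sq_sqrt ht
    calc q t ^ 8 = ((q t ^ 2) ^ 2) ^ 2 := by ring
      _ = k t := by rw [h1, h2, h3]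
  have hq0 : ∀ t, 0 ≤ q t := fun t => Real.sqrt_nonneg _
  -- the point T
  obtain ⟨t1, ht1, hk1⟩ := hunb ((max 1 q₀) ^ 8)
  obtain ⟨t2, ht2, hk2⟩ := hunb 3
  set T : ℝ := max (max 0 t1) (max t2 (200 + 3 * t2 - B t2)) with hT
  have hT0 : 0 ≤ T := le_trans (le_max_left _ _) (le_max_left _ _)
  have hTt1 : t1 ≤ T := le_trans (le_max_right _ _) (le_max_left _ _)
  have hTt2 : t2 ≤ T := le_trans (le_max_left _ _) (le_max_right _ _)
  have hTB : 200 + 3 * t2 - B t2 ≤ T := le_trans (le_max_right _ _) (le_max_right _ _)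
  have hTt0 : t₀ + 1 < T := by linarith
  have hkT : ∀ t, T ≤ t → (max 1 q₀) ^ 8 ≤ k t := by
    intro t ht
    have := hmono t1 t (by linarith) (by linarith)
    linarith
  have hm1 : (1 : ℝ) ≤ max 1 q₀ := le_max_left _ _
  have hk0 : ∀ t, T ≤ t → 0 ≤ k t := by
    intro t ht
    have := hkT t ht
    have : (0 : ℝ) ≤ (max 1 q₀) ^ 8 := by positivity
    linarith
  have hqT : ∀ t, T ≤ t → max 1 q₀ ≤ q t := by
    intro t ht
    have h1 : (max 1 q₀) ^ 8 ≤ q t ^ 8 := by
      rw [hq8 t (hk0 t ht)]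
      exact hkT t ht
    exact le_of_pow_le_pow_left₀ (by norm_num) (hq0 t) h1
  have hq1 : ∀ t, T ≤ t → 1 ≤ q t := fun t ht => hm1.trans (hqT t ht)
  have hBT : ∀ t, T ≤ t → 2 * t + 200 ≤ B t := by
    intro t ht
    have h1 := hk t2 t (by linarith) (by linarith)
    have h2 : 3 * (t - t2) ≤ k t2 * (t - t2) :=
      mul_le_mul_of_nonneg_right hk2.le (by linarith)
    linarith
  -- a good point
  have hgood : ∃ t, T ≤ t ∧ q (t + 2 / q t ^ 6) ≤ q t + 1 / (16 * q t ^ 4) ∧
      q t ^ 4 ≤ Real.exp (B t / 100) := by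
    by_contra hcon
    push Not at hcon
    set v : ℝ → ℝ := fun t => 1 / q t + 51 * Real.exp (-(B t / 100)) with hv
    have hvpos : ∀ t, 0 ≤ v t := by
      intro t
      have := hq0 t
      simp only [hv]
      positivity
    have hstep : ∀ t, T ≤ t → 1 / (32 * q t ^ 6) ≤ v t - v (t + 2 / q t ^ 6) := by
      intro t ht
      have e1 := hq1 t ht
      have e0 : 0 < q t := by linarith
      have eτ : 0 < 2 / q t ^ 6 := by positivity
      have e2 : q t ≤ q (t + 2 / q t ^ 6) := hqmono t _ (by linarith) (by linarith)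
      have e3 : B t + 2 ≤ B (t + 2 / q t ^ 6) := by
        have h1 := hk t (t + 2 / q t ^ 6) (by linarith) (by linarith)
        have h2 : k t * (t + 2 / q t ^ 6 - t) = 2 * q t ^ 2 := by
          rw [← hq8 t (hk0 t ht)]
          field_simp
          ring
        have h3 : 1 ≤ q t ^ 2 := one_le_pow₀ e1
        rw [h2] at h1
        linarith
      have e4 : Real.exp (-(B (t + 2 / q t ^ 6) / 100)) ≤
          Real.exp (-(B t / 100)) * (50 / 51) := by
        have h1 : Real.exp (-(B (t + 2 / q t ^ 6) / 100)) ≤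
            Real.exp (-(B t / 100) + (-(1 / 50))) := by
          apply Real.exp_le_exp.2
          linarith
        rw [Real.exp_add] at h1
        have h2 : Real.exp (-(1 / 50 : ℝ)) ≤ 50 / 51 := by
          rw [Real.exp_neg]
          have h3 : (1 / 50 : ℝ) + 1 ≤ Real.exp (1 / 50) := Real.add_one_le_exp _
          have h4 : (Real.exp (1 / 50 : ℝ))⁻¹ ≤ ((1 / 50 : ℝ) + 1)⁻¹ :=
            inv_anti₀ (by norm_num) h3
          refine h4.trans ?_
          norm_num
        exact h1.trans (mul_le_mul_of_nonneg_left h2 (Real.exp_pos _).le)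
      have e5 : 1 / q (t + 2 / q t ^ 6) ≤ 1 / q t := one_div_le_one_div_of_le e0 e2
      have e6 : 0 < Real.exp (-(B t / 100)) := Real.exp_pos _
      simp only [hv]
      by_cases hc : q (t + 2 / q t ^ 6) ≤ q t + 1 / (16 * q t ^ 4)
      · -- fast growth of k
        have h1 := hcon t ht hc
        have h2 : 1 / q t ^ 4 ≤ Real.exp (-(B t / 100)) := by
          rw [Real.exp_neg, one_div]
          exact inv_anti₀ (Real.exp_pos _) h1.le
        have h3 : 1 / (32 * q t ^ 6) ≤ 1 / q t ^ 4 := by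
          apply one_div_le_one_div_of_le (by positivity)
          have h4 : q t ^ 4 ≤ q t ^ 6 := pow_le_pow_right₀ e1 (by norm_num)
          have h5 : 0 ≤ q t ^ 6 := by positivity
          linarith
        linarith
      · push Not at hc
        have h1 : 1 / q (t + 2 / q t ^ 6) ≤ 1 / (q t + 1 / (16 * q t ^ 4)) :=
          one_div_le_one_div_of_le (by positivity) hc.le
        have h2 : 1 / (32 * q t ^ 6) ≤ 1 / q t - 1 / (q t + 1 / (16 * q t ^ 4)) := by
          have h3 : 1 / q t - 1 / (q t + 1 / (16 * q t ^ 4)) =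
              1 / (q t * (16 * q t ^ 5 + 1)) := by
            field_simp
            ring
          rw [h3]
          apply one_div_le_one_div_of_le (by positivity)
          have h4 : 1 ≤ q t ^ 5 := one_le_pow₀ e1
          have h5 : q t * (16 * q t ^ 5 + 1) ≤ q t * (16 * q t ^ 5 + 16 * q t ^ 5) :=
            mul_le_mul_of_nonneg_left (by linarith) e0.le
          calc q t * (16 * q t ^ 5 + 1) ≤ q t * (16 * q t ^ 5 + 16 * q t ^ 5) := h5
            _ = 32 * q t ^ 6 := by ring
        have h6 : Real.exp (-(B (t + 2 / q t ^ 6) / 100)) ≤ Real.exp (-(B t / 100)) := by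
          refine e4.trans ?_
          linarith
        linarith
    -- the sequence
    let a : ℕ → ℝ := fun n => Nat.rec T (fun _ t => t + 2 / q t ^ 6) n
    have ha0 : a 0 = T := rfl
    have has : ∀ n, a (n + 1) = a n + 2 / q (a n) ^ 6 := fun _ => rfl
    have haT : ∀ n, T ≤ a n := by
      intro n
      induction n with
      | zero => exact le_of_eq ha0.symm
      | succ n ih =>
        rw [has]
        have h1 := hq1 _ ih
        have h2 : 0 < 2 / q (a n) ^ 6 := by positivity
        linarith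
    have hab : ∀ n, a n - T ≤ 64 * (v T - v (a n)) := by
      intro n
      induction n with
      | zero => rw [ha0]; simp
      | succ n ih =>
        have h1 := hstep (a n) (haT n)
        have h2 : 2 / q (a n) ^ 6 = 64 * (1 / (32 * q (a n) ^ 6)) := by
          have h3 := hq1 _ (haT n)
          field_simp
          ring
        rw [← has] at h1
        have h4 := has n
        linarith
    set T' : ℝ := T + 64 * v T with hT'
    have haT' : ∀ n, a n ≤ T' := by
      intro n
      have h1 := hab n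
      have h2 := hvpos (a n)
      linarith
    have hQ1 : 1 ≤ q T' := by
      apply hq1
      have := hvpos T
      linarith
    have hlin : ∀ n : ℕ, T + n * (2 / q T' ^ 6) ≤ a n := by
      intro n
      induction n with
      | zero => rw [ha0]; simp
      | succ n ih =>
        have h1 : 2 / q T' ^ 6 ≤ 2 / q (a n) ^ 6 := by
          have h2 := hq1 _ (haT n)
          apply div_le_div_of_nonneg_left (by norm_num) (by positivity)
          exact pow_le_pow_left₀ (hq0 _) (hqmono _ _ (by linarith [haT n]) (haT' n)) 6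
        rw [has]
        push_cast
        linarith
    have hδ : 0 < 2 / q T' ^ 6 := by positivity
    obtain ⟨n, hn⟩ := exists_nat_gt ((T' - T) / (2 / q T' ^ 6))
    rw [div_lt_iff₀ hδ] at hn
    have h1 := hlin n
    have h2 := haT' n
    linarith
  obtain ⟨s, hs, hg1, hg2⟩ := hgood
  have e1 := hq1 s hs
  have e0 : 0 < q s := by linarith
  have hτ : 0 < 1 / q s ^ 6 := by positivity
  have h2τ : 2 / q s ^ 6 = 2 * (1 / q s ^ 6) := by ring
  have hst : s ≤ s + 1 / q s ^ 6 := by linarith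
  have hqst : q s ≤ q (s + 1 / q s ^ 6) := hqmono _ _ (by linarith) hst
  have hup : ∀ t, s ≤ t → t ≤ s + 2 / q s ^ 6 → k t ≤ q s ^ 8 + q s ^ 3 := by
    intro t h1 h2
    rw [← hq8 t (hk0 t (by linarith))]
    exact pow_aux e1 ((hqmono t _ (by linarith) h2).trans hg1) (hq0 _)
  have hlo : ∀ t, s ≤ t → q s ^ 8 ≤ k t := by
    intro t h1
    rw [hq8 s (hk0 s hs)]
    exact hmono s t (by linarith) h1
  refine ⟨s + 1 / q s ^ 6, q (s + 1 / q s ^ 6), by linarith, ?_, by linarith, ?_, ?_⟩
  · exact (le_max_right 1 q₀).trans (hqT _ (by linarith))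
  · have h1 : q (s + 1 / q s ^ 6) ≤ 2 * q s := by
      have h2 : q (s + 1 / q s ^ 6) ≤ q s + 1 / (16 * q s ^ 4) :=
        (hqmono _ (s + 2 / q s ^ 6) (by linarith) (by linarith)).trans hg1
      have h3 : 1 / (16 * q s ^ 4) ≤ 1 := by
        rw [div_le_one (by positivity)]
        have := one_le_pow₀ e1 (n := 4)
        linarith
      linarith
    have h4 : q (s + 1 / q s ^ 6) ^ 100 ≤ (2 * q s) ^ 100 := pow_le_pow_left₀ (hq0 _) h1 100
    have h5 : (2 * q s) ^ 100 = 2 ^ 100 * (q s ^ 4) ^ 25 := by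
      rw [mul_pow, ← pow_mul]
    have h6 : (q s ^ 4) ^ 25 ≤ Real.exp (B s / 100) ^ 25 :=
      pow_le_pow_left₀ (by positivity) hg2 25
    have h7 : Real.exp (B s / 100) ^ 25 = Real.exp (B s / 4) := by
      rw [← Real.exp_nat_mul]
      congr 1
      push_cast
      ring
    have h8 : (2 : ℝ) ^ 100 ≤ Real.exp 100 := by
      have h9 : (2 : ℝ) ≤ Real.exp 1 := by
        have := Real.add_one_le_exp (1 : ℝ)
        linarith
      calc (2 : ℝ) ^ 100 ≤ Real.exp 1 ^ 100 := pow_le_pow_left₀ (by norm_num) h9 100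
        _ = Real.exp 100 := by
            rw [← Real.exp_nat_mul]
            congr 1
            norm_num
    have h10 : B s ≤ B (s + 1 / q s ^ 6) := by
      have h11 := hk s (s + 1 / q s ^ 6) (by linarith) (by linarith)
      have h12 : 0 ≤ k s * (s + 1 / q s ^ 6 - s) := by
        apply mul_nonneg (hk0 s hs)
        linarith
      linarith
    have h13 := hBT (s + 1 / q s ^ 6) (by linarith)
    calc q (s + 1 / q s ^ 6) ^ 100 ≤ (2 * q s) ^ 100 := h4
      _ = 2 ^ 100 * (q s ^ 4) ^ 25 := h5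
      _ ≤ Real.exp 100 * Real.exp (B s / 4) := by
          rw [← h7]
          exact mul_le_mul h8 h6 (by positivity) (Real.exp_pos _).le
      _ = Real.exp (100 + B s / 4) := (Real.exp_add _ _).symm
      _ ≤ Real.exp (B (s + 1 / q s ^ 6) - (s + 1 / q s ^ 6)) := by
          apply Real.exp_le_exp.2
          linarith
  · intro h hh
    have hqq : 1 / q (s + 1 / q s ^ 6) ^ 6 ≤ 1 / q s ^ 6 := by
      apply one_div_le_one_div_of_le (by positivity)
      exact pow_le_pow_left₀ (hq0 _) hqst 6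
    have hh1 := abs_le.1 (hh.trans hqq)
    have r1 : s ≤ s + 1 / q s ^ 6 + h := by linarith
    have r2 : s + 1 / q s ^ 6 + h ≤ s + 2 / q s ^ 6 := by linarith
    have m1 := hup _ r1 r2
    have m2 := hlo _ r1
    have m3 := hup (s + 1 / q s ^ 6) hst (by linarith)
    have m4 := hlo (s + 1 / q s ^ 6) hst
    rw [hq8 (s + 1 / q s ^ 6) (hk0 _ (by linarith))]
    have m5 := hk (s + 1 / q s ^ 6 + h) (s + 1 / q s ^ 6) (by linarith) (by linarith)
    have m6 : |k (s + 1 / q s ^ 6 + h) - k (s + 1 / q s ^ 6)| ≤ q s ^ 3 := by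
      rw [abs_le]
      constructor <;> linarith
    have m7 : (k (s + 1 / q s ^ 6 + h) - k (s + 1 / q s ^ 6)) * h ≤
        1 / q (s + 1 / q s ^ 6) ^ 3 := by
      have n1 : 1 ≤ q (s + 1 / q s ^ 6) := by linarith
      calc (k (s + 1 / q s ^ 6 + h) - k (s + 1 / q s ^ 6)) * h ≤
            |(k (s + 1 / q s ^ 6 + h) - k (s + 1 / q s ^ 6)) * h| := le_abs_self _
        _ = |k (s + 1 / q s ^ 6 + h) - k (s + 1 / q s ^ 6)| * |h| := abs_mul _ _
        _ ≤ q s ^ 3 * (1 / q (s + 1 / q s ^ 6) ^ 6) :=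
            mul_le_mul m6 hh (abs_nonneg _) (by positivity)
        _ ≤ q (s + 1 / q s ^ 6) ^ 3 * (1 / q (s + 1 / q s ^ 6) ^ 6) := by
            apply mul_le_mul_of_nonneg_right _ (by positivity)
            exact pow_le_pow_left₀ e0.le hqst 3
        _ = 1 / q (s + 1 / q s ^ 6) ^ 3 := by
            have n2 : 0 < q (s + 1 / q s ^ 6) := by linarith
            generalize q (s + 1 / q s ^ 6) = Q at n2
            field_simp
    linarith

end Pool.Agent.Y562.LT
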